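import Pool.Agent.NH78.Rec.Data

/-!
# The rankings of the identification minors are charts
-/

set_option autoImplicit false
set_option linter.unusedSectionVars false

open Function Finset Pool.Agent.R795.Min Pool.Agent.NH78.Glue

namespace Pool.Agent.NH78.Rec

variable {A B : Type} [DecidableEq A]

/-- A value which is taken often. -/
theorem exists_class [Fintype A] {n m : ℕ} (b : Fin n → A) (hn : m * Fintype.card A < n) :
    ∃ z, m + 1 ≤ (univ.filter fun k => b k = z).card := by
  obtain ⟨z, _, hz⟩ := exists_lt_card_fiber_of_mul_lt_card_of_maps_to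
    (s := (univ : Finset (Fin n))) (t := (univ : Finset A)) (f := b) (n := m)
    (fun _ _ => mem_univ _) (by rw [card_univ, card_univ, Fintype.card_fin, mul_comm]; exact hn)
  exact ⟨z, hz⟩

theorem not_sing_of_count {n : ℕ} {b : Fin n → A} {z : A} {m : ℕ} (hm : 1 ≤ m)
    (hz : m + 1 ≤ (univ.filter fun k => b k = z).card) {p : Fin n} (hp : b p = z) :
    ¬ IsSing b p := by
  rw [isSing_iff, hp, count_content]
  omega

variable {n : ℕ} {f g : (Fin n → A) → B}

theorem chartE [Fintype A] (hf : DetCS f) (hn : 5 * Fintype.card A < n) {i j i' j' : Fin n}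
    (D : KD f g i j) (D' : KD f g i' j') {l l' : List (Fin n)} (hl : Srt D.r l)
    (hl' : Srt D'.r l') (hp : l.Perm l') (hT : ∀ x ∈ l, x ∉ D.T ∧ x ∉ D'.T) :
    (sysCS f g hf).E l l' := by
  refine ⟨hp, fun b hb a a' h1 h2 h3 h4 => ?_⟩
  obtain ⟨z, hz⟩ := exists_class b hn
  obtain ⟨Z, hZ⟩ : ∃ Z, Z = univ.filter fun k => b k = z := ⟨_, rfl⟩
  rw [← hZ] at hz
  have mZ : ∀ x, x ∈ Z ↔ b x = z := by intro x; rw [hZ, mem_filter]; simp
  have hZl : Disjoint Z l.toFinset := by
    rw [disjoint_left]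
    intro x hx hx'
    rw [List.mem_toFinset, ← hb] at hx'
    exact not_sing_of_count (m := 5) (by omega) (hZ ▸ hz) ((mZ x).1 hx) hx'
  have hWl : Disjoint (D.T ∪ D'.T) l.toFinset := by
    rw [disjoint_right]
    intro x hx hx'
    rw [List.mem_toFinset] at hx
    rw [mem_union] at hx'
    exact hx'.elim (hT x hx).1 (hT x hx).2
  have hcard : (D.T ∪ D'.T).card ≤ Z.card := by
    have e1 := card_union_le D.T D'.T
    have e2 := D.card_T
    have e3 := D'.card_T
    omega
  obtain ⟨θ, hθ1, hθ2⟩ := exists_move hWl hZl hcard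
  have hθl : ∀ x ∈ l, θ x = x := fun x hx => hθ1 x (List.mem_toFinset.2 hx)
  have hθl' : ∀ x ∈ l', θ x = x := fun x hx => hθl x (hp.mem_iff.2 hx)
  have hc : content (fun k => b (θ k)) = content b := content_comp b θ
  have hsing : ∀ p, IsSing (fun k => b (θ k)) p ↔ p ∈ l := by
    intro p
    rw [isSing_comp, hb]
    constructor
    · intro h
      have := hθl _ h
      rwa [θ.injective this] at h
    · intro h
      rwa [hθl p h]
  have hZc : 3 ≤ (content fun k => b (θ k)).count z := by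
    rw [hc, count_content, ← hZ]
    omega
  have hW : ∀ w, w ∈ D.T ∪ D'.T → b (θ w) = z := fun w hw => (mZ _).1 (hθ2 w hw)
  have e1 : f a = g (fun k => b (θ k)) := by
    apply D.val_of_const (b := fun k => b (θ k)) (z := z) hf
      (hW i (mem_union_left _ D.i_mem)) (hW j (mem_union_left _ D.j_mem))
      (hW D.d (mem_union_left _ D.d_mem)) hZc hl hsing (by rw [hc]; exact h1)
    rw [h3]
    exact List.map_congr_left fun x hx => by rw [hθl x hx]
  have e2 : f a' = g (fun k => b (θ k)) := by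
    apply D'.val_of_const (b := fun k => b (θ k)) (z := z) hf
      (hW i' (mem_union_right _ D'.i_mem)) (hW j' (mem_union_right _ D'.j_mem))
      (hW D'.d (mem_union_right _ D'.d_mem)) hZc hl'
      (fun p => (hsing p).trans hp.mem_iff) (by rw [hc]; exact h2)
    rw [h4]
    exact List.map_congr_left fun x hx => by rw [hθl' x hx]
  rw [e1, e2]

theorem chartVal [Fintype A] (hf : DetCS f) (hn : 5 * Fintype.card A < n)
    (hall : ∀ i j : Fin n, i ≠ j → Nonempty (KD f g i j))
    (hK : ∀ Q : Finset (Fin n), Q.card ≤ Fintype.card A + 3 →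
      ∃ (i j : Fin n) (D : KD f g i j), i ≠ j ∧ Disjoint D.T Q)
    {i j : Fin n} (D : KD f g i j) {l : List (Fin n)} (hl : Srt D.r l)
    (hT : ∀ x ∈ l, x ∉ D.T) : (sysCS f g hf).Val l := by
  intro b hb a h1 h3
  obtain ⟨z, hz⟩ := exists_class b hn
  obtain ⟨Z, hZ⟩ : ∃ Z, Z = univ.filter fun k => b k = z := ⟨_, rfl⟩
  rw [← hZ] at hz
  have mZ : ∀ x, x ∈ Z ↔ b x = z := by intro x; rw [hZ, mem_filter]; simp
  have nZ : ∀ x ∈ l, x ∉ Z := by
    intro x hx hx'
    rw [← hb] at hx
    exact not_sing_of_count (m := 5) (by omega) (hZ ▸ hz) ((mZ x).1 hx') hx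
  obtain ⟨i0, hi0, j0, hj0, hij0⟩ := one_lt_card.1 (show 1 < Z.card by omega)
  obtain ⟨D0⟩ := hall i0 j0 hij0
  obtain ⟨P, hP⟩ : ∃ P, P = l.toFinset := ⟨_, rfl⟩
  have mP : ∀ x, x ∈ P ↔ x ∈ l := by intro x; rw [hP, List.mem_toFinset]
  have hPc : P.card ≤ Fintype.card A := card_sing_le b P fun u hu => (hb u).2 ((mP u).1 hu)
  obtain ⟨i2, j2, D2, _, hd2⟩ := hK (P ∪ D0.T) (by
    have e1 := card_union_le P D0.T
    have e2 := D0.card_T
    omega)
  have hdT : Disjoint (Z \ D0.T) (P ∪ D0.T) := by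
    rw [disjoint_left]
    intro x hx hx'
    rw [mem_sdiff] at hx
    rw [mem_union] at hx'
    rcases hx' with h | h
    · exact nZ x ((mP x).1 h) hx.1
    · exact hx.2 h
  obtain ⟨θ, hθ1, hθ2⟩ := exists_move hd2 hdT (by
    have e1 := card_le_card_sdiff_add_card (s := Z) (t := D0.T)
    have e2 := D0.card_T
    have e3 := D2.card_T
    omega)
  have hθP : ∀ x ∈ P, θ x = x := fun x hx => hθ1 x (mem_union_left _ hx)
  have hθl : ∀ x ∈ l, θ x = x := fun x hx => hθP x ((mP x).2 hx)
  have hθT : ∀ x ∈ D0.T, θ x = x := fun x hx => hθ1 x (mem_union_right _ hx)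
  have hc : content (fun k => b (θ k)) = content b := content_comp b θ
  have hsing : ∀ p, IsSing (fun k => b (θ k)) p ↔ p ∈ l := by
    intro p
    rw [isSing_comp, hb]
    constructor
    · intro h
      have := hθl _ h
      rwa [θ.injective this] at h
    · intro h
      rwa [hθl p h]
  have hbi0 : b i0 = z := (mZ i0).1 hi0
  have hbj0 : b j0 = z := (mZ j0).1 hj0
  have hZb : 3 ≤ (content b).count z := by
    rw [count_content, ← hZ]
    omega
  -- the two tuples have the same value of `g`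
  have hg : g b = g (fun k => b (θ k)) := by
    rw [D0.eq b (hbi0.trans hbj0.symm), D0.eq (fun k => b (θ k)) (by
      rw [hθT i0 D0.i_mem, hθT j0 D0.j_mem]
      exact hbi0.trans hbj0.symm)]
    obtain ⟨l0, sl0, ml0, -⟩ := exists_srt D0.r_inj (P.erase D0.d)
    have e1 : sing (fun p => b (D0.κ p)) = l0.map b := by
      apply D0.sing_κ (by rw [hbj0]; exact hZb) sl0
      intro x
      rw [ml0, mem_erase, mP, hb]
      exact and_comm
    have e2 : sing (fun p => b (θ (D0.κ p))) = l0.map fun k => b (θ k) := by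
      apply D0.sing_κ (b := fun k => b (θ k))
        (by rw [hc, hθT j0 D0.j_mem, hbj0]; exact hZb) sl0
      intro x
      rw [ml0, mem_erase, mP, hsing]
      exact and_comm
    apply hf
    · have e3 := D0.content_κ b
      have e4 := D0.content_κ (fun k => b (θ k))
      rw [hc, hθT j0 D0.j_mem, hθT D0.d D0.d_mem, ← e3] at e4
      exact (add_right_cancel e4).symm
    · rw [e1, e2]
      apply List.map_congr_left
      intro x hx
      have hxP : x ∈ P := (mem_erase.1 ((ml0 x).1 hx)).2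
      rw [hθP x hxP]
  -- the other ordering
  obtain ⟨l2, sl2, ml2, -⟩ := exists_srt D2.r_inj P
  have hperm : l.Perm l2 := by
    rw [List.perm_ext_iff_of_nodup hl.nodup sl2.nodup]
    intro x
    rw [ml2, mP]
  have hE := chartE hf hn D D2 hl sl2 hperm (fun x hx => ⟨hT x hx, fun h =>
    disjoint_left.1 hd2 h (mem_union_left _ ((mP x).2 hx))⟩)
  obtain ⟨a2, h5, h6⟩ := exists_tuple b sl2.nodup (fun p => (hb p).trans hperm.mem_iff)
  rw [hE.2 b hb a a2 h1 h5 h3 h6, hg]
  have hW : ∀ w, w ∈ D2.T → b (θ w) = z := fun w hw => (mZ _).1 (mem_sdiff.1 (hθ2 w hw)).1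
  apply D2.val_of_const (b := fun k => b (θ k)) (z := z) hf
    (hW i2 D2.i_mem) (hW j2 D2.j_mem) (hW D2.d D2.d_mem) (by rw [hc]; exact hZb) sl2
    (fun p => (hsing p).trans hperm.mem_iff) (by rw [hc]; exact h5)
  rw [h6]
  apply List.map_congr_left
  intro x hx
  rw [hθl x (hperm.mem_iff.2 hx)]

end Pool.Agent.NH78.Rec
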