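import Pool.Agent.NH78.Rec.Tuple

/-!
# The data of a common identification minor
-/

set_option autoImplicit false
set_option linter.unusedSectionVars false

open Function Finset Pool.Agent.R795.Min Pool.Agent.NH78.Glue

namespace Pool.Agent.NH78.Rec

variable {A B : Type}

/-- For tuples with equal entries at `i` and `j` the function `g` is given by `f` through a map of
positions. -/
structure KD {n : ℕ} (f g : (Fin n → A) → B) (i j : Fin n) where
  κ : Fin n → Fin n
  i' : Fin n
  j' : Fin n
  d : Fin n
  ne' : i' ≠ j'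
  κi : κ i' = d
  κj : κ j' = d
  inj : ∀ p q, p ≠ j' → q ≠ j' → κ p = κ q → p = q
  ne : ∀ p, κ p ≠ j
  surj : ∀ q, q ≠ j → ∃ p, p ≠ j' ∧ κ p = q
  eq : ∀ b : Fin n → A, b i = b j → g b = f (fun p => b (κ p))

namespace KD

variable {n : ℕ} {f g : (Fin n → A) → B} {i j : Fin n} (D : KD f g i j)

/-- The exceptional set. -/
def T : Finset (Fin n) := {i, j, D.d}

theorem card_T : D.T.card ≤ 3 := card_le_three

theorem i_mem : i ∈ D.T := by simp [T]
theorem j_mem : j ∈ D.T := by simp [T]
theorem d_mem : D.d ∈ D.T := by simp [T]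

theorem content_κ (b : Fin n → A) :
    content (fun p => b (D.κ p)) + {b j} = content b + {b D.d} := by
  classical
  have h1 : content (fun p => b (D.κ p)) =
      b D.d ::ₘ ((univ.erase D.j').val.map fun p => b (D.κ p)) := by
    rw [content, ← D.κj]
    rw [← Multiset.map_cons (fun p => b (D.κ p)) D.j']
    congr 1
    rw [Finset.erase_val, Multiset.cons_erase]
    exact mem_univ D.j'
  have h2 : content b = b j ::ₘ ((univ.erase j).val.map b) := by
    rw [content]
    rw [← Multiset.map_cons b j]
    congr 1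
    rw [Finset.erase_val, Multiset.cons_erase]
    exact mem_univ j
  have h3 : (univ.erase j).val = (univ.erase D.j').val.map D.κ := by
    rw [← Finset.image_val_of_injOn]
    · congr 1
      ext q
      rw [mem_erase, mem_image]
      constructor
      · rintro ⟨hq, _⟩
        obtain ⟨p, hp, hpq⟩ := D.surj q hq
        exact ⟨p, mem_erase.2 ⟨hp, mem_univ _⟩, hpq⟩
      · rintro ⟨p, _, rfl⟩
        exact ⟨D.ne p, mem_univ _⟩
    · intro p hp q hq hpq
      rw [mem_coe, mem_erase] at hp hq
      exact D.inj p q hp.1 hq.1 hpq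
  rw [h1, h2, h3, Multiset.map_map]
  have h4 : (univ.erase D.j').val.map (b ∘ D.κ) =
      (univ.erase D.j').val.map fun p => b (D.κ p) := rfl
  rw [h4, Multiset.cons_add, Multiset.cons_add, ← Multiset.singleton_add, ← Multiset.singleton_add]
  rw [add_comm ((univ.erase D.j').val.map fun p => b (D.κ p)) {b j},
    add_comm ((univ.erase D.j').val.map fun p => b (D.κ p)) {b D.d}]
  exact add_left_comm _ _ _

/-- The ranking of positions. -/
noncomputable def r : Fin n → ℤ := by
  classical
  exact fun q => if h : q = j then -1 else (((D.surj q h).choose : ℕ) : ℤ)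

theorem r_κ {p : Fin n} (hp : p ≠ D.j') : D.r (D.κ p) = ((p : ℕ) : ℤ) := by
  classical
  unfold r
  rw [dif_neg (D.ne p)]
  have h1 := (D.surj (D.κ p) (D.ne p)).choose_spec
  have h2 := D.inj _ _ h1.1 hp h1.2
  rw [h2]

theorem r_inj : Injective D.r := by
  classical
  have hj : D.r j = -1 := by
    unfold r
    rw [dif_pos rfl]
  intro x y hxy
  by_cases hx : x = j
  · by_cases hy : y = j
    · rw [hx, hy]
    · obtain ⟨q, hq, rfl⟩ := D.surj y hy
      rw [hx, hj, D.r_κ hq] at hxy
      omega
  · obtain ⟨p, hp, rfl⟩ := D.surj x hx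
    by_cases hy : y = j
    · rw [hy, hj, D.r_κ hp] at hxy
      omega
    · obtain ⟨q, hq, rfl⟩ := D.surj y hy
      rw [D.r_κ hp, D.r_κ hq] at hxy
      have : (p : ℕ) = q := by exact_mod_cast hxy
      rw [Fin.ext this]

variable [DecidableEq A]

theorem count_κ (b : Fin n → A) (v : A) :
    (content fun p => b (D.κ p)).count v + (if b j = v then 1 else 0) =
      (content b).count v + (if b D.d = v then 1 else 0) := by
  have := congrArg (Multiset.count v) (D.content_κ b)
  rw [Multiset.count_add, Multiset.count_add, Multiset.count_singleton,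
    Multiset.count_singleton] at this
  simp only [eq_comm (a := v)] at this
  exact this

theorem isSing_κ {b : Fin n → A} (h3 : 3 ≤ (content b).count (b j)) (p : Fin n) :
    IsSing (fun p => b (D.κ p)) p ↔ IsSing b (D.κ p) ∧ D.κ p ≠ D.d := by
  rw [isSing_iff, isSing_iff]
  have h1 := D.count_κ b (b (D.κ p))
  have h2 := count_pos b (D.κ p)
  by_cases hj : b j = b (D.κ p)
  · rw [if_pos hj] at h1
    rw [hj] at h3
    constructor
    · intro h
      omega
    · rintro ⟨h, _⟩
      omega
  · rw [if_neg hj] at h1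
    constructor
    · intro h
      by_cases hd : b D.d = b (D.κ p)
      · rw [if_pos hd] at h1
        omega
      · rw [if_neg hd] at h1
        refine ⟨by omega, fun h => hd (by rw [h])⟩
    · rintro ⟨h, hd⟩
      have hd' : b D.d ≠ b (D.κ p) := by
        intro h'
        exact hd (((isSing_iff b (D.κ p)).2 h) _ h').symm
      rw [if_neg hd'] at h1
      omega

theorem sing_κ {b : Fin n → A} (h3 : 3 ≤ (content b).count (b j)) {l : List (Fin n)}
    (hl : Srt D.r l) (hm : ∀ x, x ∈ l ↔ IsSing b x ∧ x ≠ D.d) :
    sing (fun p => b (D.κ p)) = l.map b := by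
  have hj' : ¬ IsSing (fun p => b (D.κ p)) D.j' := by
    rw [D.isSing_κ h3]
    rintro ⟨_, h⟩
    exact h D.κj
  apply sing_eq_map (r := D.r) hl
  · intro p q hp hq hpq
    have h1 : p ≠ D.j' := by rintro rfl; exact hj' hp
    have h2 : q ≠ D.j' := by rintro rfl; exact hj' hq
    rw [D.r_κ h1, D.r_κ h2]
    have : (p : ℕ) < q := hpq
    exact_mod_cast this
  · intro x
    rw [hm]
    constructor
    · rintro ⟨hx, hxd⟩
      have hxj : x ≠ j := by
        rintro rfl
        rw [isSing_iff] at hx
        omega
      obtain ⟨p, _, rfl⟩ := D.surj x hxj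
      exact ⟨p, (D.isSing_κ h3 p).2 ⟨hx, hxd⟩, rfl⟩
    · rintro ⟨p, hp, rfl⟩
      exact (D.isSing_κ h3 p).1 hp

/-- Sorted orderings compute `g` on tuples which are constant on the exceptional set. -/
theorem val_of_const (hf : DetCS f) {b : Fin n → A} {z : A} (hi : b i = z) (hj : b j = z)
    (hd : b D.d = z) (h3 : 3 ≤ (content b).count z) {l : List (Fin n)} (hl : Srt D.r l)
    (hm : ∀ p, IsSing b p ↔ p ∈ l) {a : Fin n → A} (ha : content a = content b)
    (hs : sing a = l.map b) : f a = g b := by
  rw [D.eq b (hi.trans hj.symm)]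
  apply hf
  · have := D.content_κ b
    rw [hj, hd] at this
    rw [ha]
    exact (add_right_cancel this).symm
  · rw [hs]
    symm
    apply D.sing_κ (by rw [hj]; exact h3) hl
    intro x
    rw [hm]
    refine ⟨fun hx => ⟨hx, ?_⟩, fun h => h.1⟩
    rintro rfl
    have := (hm D.d).2 hx
    rw [isSing_iff, hd] at this
    omega

end KD

end Pool.Agent.NH78.Rec
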