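import Pool.Agent.NH78.Rec.Special

/-!
# Assembly
-/

set_option autoImplicit false
set_option linter.unusedSectionVars false

open Function Finset Pool.Agent.R795.Min Pool.Agent.NH78.Glue

namespace Pool.Agent.NH78.Rec

variable {A B : Type}

/-- The data of similar identification minors. -/
theorem kd_of_sim {m : ℕ} {f g : (Fin (m + 1) → A) → B} (i0 : Fin m) (j0 : Fin (m + 1))
    (i1 : Fin m) (j1 : Fin (m + 1)) (τ : Equiv.Perm (Fin m))
    (h : ∀ a : Fin m → A, g (j0.insertNth (a i0) a) =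
      f (j1.insertNth (a (τ i1)) fun k => a (τ k))) :
    Nonempty (KD f g (j0.succAbove i0) j0) := by
  obtain ⟨κ, hκ⟩ : ∃ κ : Fin (m + 1) → Fin (m + 1),
      κ = j1.insertNth (j0.succAbove (τ i1)) (fun k => j0.succAbove (τ k)) := ⟨_, rfl⟩
  have κj : κ j1 = j0.succAbove (τ i1) := by rw [hκ, Fin.insertNth_apply_same]
  have κs : ∀ k, κ (j1.succAbove k) = j0.succAbove (τ k) := by
    intro k
    rw [hκ, Fin.insertNth_apply_succAbove]
  refine ⟨{
    κ := κ
    i' := j1.succAbove i1
    j' := j1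
    d := j0.succAbove (τ i1)
    ne' := Fin.succAbove_ne j1 i1
    κi := κs i1
    κj := κj
    inj := ?_
    ne := ?_
    surj := ?_
    eq := ?_ }⟩
  · intro p q hp hq hpq
    obtain ⟨k, rfl⟩ := Fin.exists_succAbove_eq hp
    obtain ⟨l, rfl⟩ := Fin.exists_succAbove_eq hq
    rw [κs, κs] at hpq
    rw [τ.injective (Fin.succAbove_right_injective hpq)]
  · intro p
    by_cases hp : p = j1
    · rw [hp, κj]
      exact Fin.succAbove_ne _ _
    · obtain ⟨k, rfl⟩ := Fin.exists_succAbove_eq hp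
      rw [κs]
      exact Fin.succAbove_ne _ _
  · intro q hq
    obtain ⟨k, rfl⟩ := Fin.exists_succAbove_eq hq
    refine ⟨j1.succAbove (τ.symm k), Fin.succAbove_ne _ _, ?_⟩
    rw [κs, Equiv.apply_symm_apply]
  · intro b hb
    have h1 := h fun k => b (j0.succAbove k)
    have h2 : j0.insertNth (b (j0.succAbove i0)) (fun k => b (j0.succAbove k)) = b := by
      funext x
      by_cases hx : x = j0
      · rw [hx, Fin.insertNth_apply_same, hb]
      · obtain ⟨k, rfl⟩ := Fin.exists_succAbove_eq hx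
        rw [Fin.insertNth_apply_succAbove]
    have h3 : j1.insertNth (b (j0.succAbove (τ i1))) (fun k => b (j0.succAbove (τ k))) =
        fun p => b (κ p) := by
      funext x
      by_cases hx : x = j1
      · rw [hx, Fin.insertNth_apply_same, κj]
      · obtain ⟨k, rfl⟩ := Fin.exists_succAbove_eq hx
        rw [Fin.insertNth_apply_succAbove, κs]
    rw [← h2]
    refine h1.trans ?_
    rw [h3, h2]

/-- Exchange of the two positions of a pair. -/
theorem kd_symm {n : ℕ} {f g : (Fin n → A) → B} {i j : Fin n} (D : KD f g i j) :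
    Nonempty (KD f g j i) := by
  refine ⟨{
    κ := fun p => Equiv.swap i j (D.κ p)
    i' := D.i'
    j' := D.j'
    d := Equiv.swap i j D.d
    ne' := D.ne'
    κi := by rw [D.κi]
    κj := by rw [D.κj]
    inj := fun p q hp hq hpq => D.inj p q hp hq ((Equiv.swap i j).injective hpq)
    ne := ?_
    surj := ?_
    eq := ?_ }⟩
  · intro p hp
    have h1 := congrArg (Equiv.swap i j) hp
    rw [Equiv.swap_apply_self, Equiv.swap_apply_left] at h1
    exact D.ne p h1
  · intro q hq
    obtain ⟨p, hp, hpq⟩ := D.surj (Equiv.swap i j q) (by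
      intro h
      have h1 := congrArg (Equiv.swap i j) h
      rw [Equiv.swap_apply_self, Equiv.swap_apply_right] at h1
      exact hq h1)
    exact ⟨p, hp, by rw [hpq, Equiv.swap_apply_self]⟩
  · intro b hb
    rw [D.eq b hb.symm]
    congr 1
    funext p
    by_cases h1 : D.κ p = i
    · rw [h1, Equiv.swap_apply_left, hb]
    · by_cases h2 : D.κ p = j
      · rw [h2, Equiv.swap_apply_right, hb]
      · rw [Equiv.swap_apply_of_ne_of_ne h1 h2]

variable [DecidableEq A] {n : ℕ} {f g : (Fin n → A) → B}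

theorem exists_pair_avoid (hall : ∀ i j : Fin n, i ≠ j → Nonempty (KD f g i j))
    (hns : ¬ Special f g) (Q : Finset (Fin n)) (hQ : 3 * Q.card + 2 ≤ n) :
    ∃ (i j : Fin n) (D : KD f g i j), i ≠ j ∧ Disjoint D.T Q := by
  classical
  by_contra hcon
  push Not at hcon
  have hW : 2 * (Q.card + 1) ≤ (univ \ Q).card := by
    have := card_le_card_sdiff_add_card (s := (univ : Finset (Fin n))) (t := Q)
    rw [card_univ, Fintype.card_fin] at this
    omega
  obtain ⟨W, hWs, hWc⟩ := exists_subset_card_eq hW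
  obtain ⟨e, he⟩ : ∃ e, e = W.orderEmbOfFin hWc := ⟨_, rfl⟩
  have heQ : ∀ k, e k ∉ Q := by
    intro k hk
    have h1 : e k ∈ W := by rw [he]; exact orderEmbOfFin_mem _ _ _
    exact (mem_sdiff.1 (hWs h1)).2 hk
  obtain ⟨x, hx⟩ : ∃ x : Fin (Q.card + 1) → Fin n,
      x = fun (k : Fin (Q.card + 1)) => e ⟨2 * (k : ℕ), by have := k.2; omega⟩ := ⟨_, rfl⟩
  obtain ⟨y, hy⟩ : ∃ y : Fin (Q.card + 1) → Fin n,
      y = fun (k : Fin (Q.card + 1)) => e ⟨2 * (k : ℕ) + 1, by have := k.2; omega⟩ := ⟨_, rfl⟩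
  have hxx : ∀ k l, x k = x l → k = l := by
    intro k l h
    rw [hx] at h
    have h1 := Fin.mk.inj (e.injective h)
    exact Fin.ext (by omega)
  have hyy : ∀ k l, y k = y l → k = l := by
    intro k l h
    rw [hy] at h
    have h1 := Fin.mk.inj (e.injective h)
    exact Fin.ext (by omega)
  have hxy : ∀ k l, x k ≠ y l := by
    intro k l h
    rw [hx, hy] at h
    have h1 := Fin.mk.inj (e.injective h)
    omega
  have hxQ : ∀ k, x k ∉ Q := fun k => by rw [hx]; exact heQ _
  have hyQ : ∀ k, y k ∉ Q := fun k => by rw [hy]; exact heQ _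
  obtain ⟨D, -⟩ : ∃ D : ∀ k, KD f g (x k) (y k), True := ⟨fun k => (hall _ _ (hxy k k)).some, trivial⟩
  have hd : ∀ k, (D k).d ∈ Q := by
    intro k
    have h1 := hcon (x k) (y k) (D k) (hxy k k)
    rw [not_disjoint_iff] at h1
    obtain ⟨t, ht, htQ⟩ := h1
    rw [KD.T, mem_insert, mem_insert, mem_singleton] at ht
    rcases ht with rfl | rfl | rfl
    · exact absurd htQ (hxQ k)
    · exact absurd htQ (hyQ k)
    · exact htQ
  obtain ⟨k, _, l, _, hkl, hdd⟩ := exists_ne_map_eq_of_card_lt_of_maps_to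
    (s := (univ : Finset (Fin (Q.card + 1)))) (t := Q) (f := fun k => (D k).d)
    (by rw [card_univ, Fintype.card_fin]; omega) (fun k _ => hd k)
  have hdQ : ∀ v, v ∉ Q → (D k).d ≠ v := by
    rintro v hv rfl
    exact hv (hd k)
  exact hns ⟨x k, y k, x l, y l, D k, D l, hdd, hxy k k, hxy l l, fun h => hkl (hxx _ _ h),
    hxy k l, (hxy l k).symm, fun h => hkl (hyy _ _ h), hdQ _ (hxQ k), hdQ _ (hxQ l), hdQ _ (hyQ l)⟩

theorem main [Fintype A] (hf : DetCS f)
    (hn : 100 * ((Fintype.card A + 1) * (Fintype.card A + 1)) + 100 ≤ n)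
    (hall : ∀ i j : Fin n, i ≠ j → Nonempty (KD f g i j)) :
    ∃ σ : Equiv.Perm (Fin n), ∀ b, f (fun k => b (σ k)) = g b := by
  obtain ⟨s, hs⟩ : ∃ s, s = Fintype.card A + 1 := ⟨_, rfl⟩
  have hss : s ≤ s * s := Nat.le_mul_self s
  have hn' : 100 * (s * s) + 100 ≤ n := by rw [hs]; exact hn
  have e0 : 4 * s * s = 4 * (s * s) := by ring
  have e1 : 25 * s * s = 25 * (s * s) := by ring
  by_cases hsp : Special f g
  · refine ⟨1, fun b => ?_⟩
    rw [special_eq hf hsp (by omega) (by omega) hall]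
    rfl
  obtain ⟨r, hr, hv⟩ := core (S := sysCS f g hf) (s := s) (by omega) (by
    rw [Fintype.card_fin, e0, e1]
    omega) (by
    intro Q hQ
    rw [e0] at hQ
    obtain ⟨i, j, D, _, hd⟩ := exists_pair_avoid hall hsp Q (by omega)
    exact ⟨D.T, D.r, D.card_T, hd, D.r_inj, fun l hl hT _ =>
      chartVal hf (by omega) hall (fun Q hQ => exists_pair_avoid hall hsp Q (by omega)) D hl hT⟩)
  exact similar_of_rank hf (by omega) hr hv

end Pool.Agent.NH78.Rec
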