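import Pool.Agent.NH78.Rec.Charts

/-!
# The special case: the function depends only on the support
-/

set_option autoImplicit false
set_option linter.unusedSectionVars false

open Function Finset Pool.Agent.R795.Min Pool.Agent.NH78.Glue

namespace Pool.Agent.NH78.Rec

variable {A B : Type} [DecidableEq A] {n : ℕ} {f g : (Fin n → A) → B}

/-- Two disjoint pairs with a common third position. -/
def Special (f g : (Fin n → A) → B) : Prop :=
  ∃ (i1 j1 i2 j2 : Fin n) (D1 : KD f g i1 j1) (D2 : KD f g i2 j2), D1.d = D2.d ∧ i1 ≠ j1 ∧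
    i2 ≠ j2 ∧ i1 ≠ i2 ∧ i1 ≠ j2 ∧ j1 ≠ i2 ∧ j1 ≠ j2 ∧ D1.d ≠ i1 ∧ D1.d ≠ i2 ∧ D1.d ≠ j2

theorem special_core (hsp : Special f g) : ∃ (sp : Finset (Fin n)) (p1 : Fin n), sp.card ≤ 4 ∧
    p1 ∉ sp ∧ ∀ (c : Fin n → A) (z : A), (∀ p ∈ sp, c p = z) →
      ∃ a' : Fin n → A, f a' = f c ∧ content a' + {z} = content c + {c p1} := by
  classical
  obtain ⟨i1, j1, i2, j2, D1, D2, hd, h1, h2, h3, h4, h5, h6, h7, h8, h9⟩ := hsp
  obtain ⟨q1, hq1, hq1'⟩ := D1.surj i2 h5.symm
  obtain ⟨q2, hq2, hq2'⟩ := D1.surj j2 h6.symm
  obtain ⟨p1, hp1, hp1'⟩ := D1.surj i1 h1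
  refine ⟨{D1.i', D1.j', q1, q2}, p1, card_le_four, ?_, ?_⟩
  · rw [mem_insert, mem_insert, mem_insert, mem_singleton]
    rintro (h | h | h | h)
    · rw [h, D1.κi] at hp1'
      exact h7 hp1'
    · exact hp1 h
    · rw [h, hq1'] at hp1'
      exact h3 hp1'.symm
    · rw [h, hq2'] at hp1'
      exact h4 hp1'.symm
  · intro c z hc
    have ci : c D1.i' = z := hc _ (by simp)
    have cj : c D1.j' = z := hc _ (by simp)
    have cq1 : c q1 = z := hc _ (by simp)
    have cq2 : c q2 = z := hc _ (by simp)
    obtain ⟨b, hb⟩ : ∃ b : Fin n → A, b = fun q =>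
      if h : q = j1 then c p1 else c ((D1.surj q h).choose) := ⟨_, rfl⟩
    have bj1 : b j1 = c p1 := by rw [hb]; simp
    have bκ : ∀ p, p ≠ D1.j' → b (D1.κ p) = c p := by
      intro p hp
      rw [hb]
      simp only [D1.ne p, dite_false]
      have e1 := (D1.surj (D1.κ p) (D1.ne p)).choose_spec
      rw [D1.inj _ _ e1.1 hp e1.2]
    have bκ' : (fun p => b (D1.κ p)) = c := by
      funext p
      by_cases hp : p = D1.j'
      · rw [hp, D1.κj, ← D1.κi, bκ _ D1.ne', ci, cj]
      · exact bκ p hp
    have bd : b D1.d = z := by rw [← D1.κi, bκ _ D1.ne', ci]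
    have bi1 : b i1 = c p1 := by rw [← hp1', bκ _ hp1]
    have bi2 : b i2 = z := by rw [← hq1', bκ _ hq1, cq1]
    have bj2 : b j2 = z := by rw [← hq2', bκ _ hq2, cq2]
    refine ⟨fun p => b (D2.κ p), ?_, ?_⟩
    · rw [← D2.eq b (bi2.trans bj2.symm), D1.eq b (bi1.trans bj1.symm), bκ']
    · have e1 := D1.content_κ b
      have e2 := D2.content_κ b
      rw [bκ', bj1, bd] at e1
      rw [bj2, ← hd, bd] at e2
      rw [e1, add_right_cancel e2]

/-- No singletons. -/
theorem eq_of_content (hf : DetCS f) {a a' : Fin n → A} (h : content a = content a')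
    (h1 : ∀ v, (content a).count v ≠ 1) : f a = f a' := by
  have key : ∀ c : Fin n → A, (∀ v, (content c).count v ≠ 1) → sing c = [] := by
    intro c hc
    rw [sing, List.filter_eq_nil_iff]
    intro x _
    rw [decide_eq_true_iff, count_ofFn, ← count_content]
    exact hc x
  apply hf a a' h
  rw [key a h1, key a' (h ▸ h1)]

theorem count_rel {a a' : Fin n → A} {x z : A} (h : content a' + {z} = content a + {x}) (v : A) :
    (content a').count v + (if z = v then 1 else 0) =
      (content a).count v + (if x = v then 1 else 0) := by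
  have := congrArg (Multiset.count v) h
  rw [Multiset.count_add, Multiset.count_add, Multiset.count_singleton,
    Multiset.count_singleton] at this
  simp only [eq_comm (a := v)] at this
  exact this

/-- The move without singletons. -/
theorem special_two (hf : DetCS f) (hsp : Special f g) {a : Fin n → A}
    (h1 : ∀ v, (content a).count v ≠ 1) {x z : A} (hxz : x ≠ z)
    (hx : (content a).count x ≠ 0) (hz : 4 ≤ (content a).count z) :
    ∃ a' : Fin n → A, f a' = f a ∧ content a' + {z} = content a + {x} := by
  classical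
  obtain ⟨sp, p1, hc, hp1, hcore⟩ := special_core hsp
  obtain ⟨px, hpx⟩ : ∃ px, a px = x := by
    by_contra hcon
    push Not at hcon
    exact hx ((count_eq_zero a x).2 hcon)
  rw [count_content] at hz
  obtain ⟨Z, hZ, hZc⟩ := exists_subset_card_eq (hc.trans hz)
  have mZ : ∀ p ∈ Z, a p = z := fun p hp => (mem_filter.1 (hZ hp)).2
  have n1 : (p1 :: sp.toList).Nodup := by
    rw [List.nodup_cons, mem_toList]
    exact ⟨hp1, sp.nodup_toList⟩
  have n2 : (px :: Z.toList).Nodup := by
    rw [List.nodup_cons, mem_toList]
    refine ⟨fun h => hxz ?_, Z.nodup_toList⟩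
    rw [← hpx, mZ px h]
  obtain ⟨θ, hθ⟩ := exists_map n1 n2 (by simp [hZc])
  rw [List.map_cons, List.cons.injEq] at hθ
  have hcont : content (fun k => a (θ k)) = content a := content_comp a θ
  obtain ⟨a', e1, e2⟩ := hcore (fun k => a (θ k)) z (by
    intro p hp
    apply mZ
    rw [← mem_toList, ← hθ.2]
    exact List.mem_map_of_mem (mem_toList.2 hp))
  refine ⟨a', ?_, ?_⟩
  · rw [e1]
    exact eq_of_content hf hcont (by rw [hcont]; exact h1)
  · rw [e2, hcont, hθ.1, hpx]

/-- The move removing a singleton. -/
theorem special_one [Fintype A] (hf : DetCS f) (hsp : Special f g) (hn : Fintype.card A + 4 ≤ n)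
    {a : Fin n → A} {p0 : Fin n} (hp0 : IsSing a p0) {z : A} (hz : 4 ≤ (content a).count z) :
    ∃ (a' : Fin n → A) (x : A), f a' = f a ∧ (content a).count x = 1 ∧
      content a' + {z} = content a + {x} := by
  classical
  obtain ⟨sp, p1, hc, hp1, hcore⟩ := special_core hsp
  have hzpos : ∀ p, a p = z → ¬ IsSing a p := by
    intro p hp h
    rw [isSing_iff, hp] at h
    omega
  rw [count_content] at hz
  obtain ⟨Z, hZ, hZc⟩ := exists_subset_card_eq (hc.trans hz)
  have mZ : ∀ p ∈ Z, a p = z := fun p hp => (mem_filter.1 (hZ hp)).2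
  obtain ⟨U, hU⟩ : ∃ U, U = univ.filter fun p => IsSing a p := ⟨_, rfl⟩
  have mU : ∀ p, p ∈ U ↔ IsSing a p := by intro p; rw [hU, mem_filter]; simp
  have hUc : U.card ≤ Fintype.card A := card_sing_le a U fun u hu => (mU u).1 hu
  have hU1 : 1 ≤ U.card := card_pos.2 ⟨p0, (mU p0).2 hp0⟩
  obtain ⟨R, hR1, hR2, hR3⟩ := exists_subsuperset_card_eq (s := {p1}) (t := univ \ sp)
    (n := U.card) (by
      rw [singleton_subset_iff, mem_sdiff]
      exact ⟨mem_univ _, hp1⟩) (by rw [card_singleton]; exact hU1) (by
      have := card_le_card_sdiff_add_card (s := (univ : Finset (Fin n))) (t := sp)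
      rw [card_univ, Fintype.card_fin] at this
      omega)
  have hr0 : Injective fun p : Fin n => ((p : ℕ) : ℤ) := by
    intro x y hxy
    have : (x : ℕ) = y := Int.ofNat_inj.1 hxy
    exact Fin.ext this
  obtain ⟨LR, sR, mR, lR⟩ := exists_srt hr0 R
  obtain ⟨LU, sU, mLU, lU⟩ := exists_srt hr0 U
  have n1 : (LR ++ sp.toList).Nodup := by
    apply List.Nodup.append sR.nodup sp.nodup_toList
    intro x hx hx'
    rw [mem_toList] at hx'
    exact (mem_sdiff.1 (hR2 ((mR x).1 hx))).2 hx'
  have n2 : (LU ++ Z.toList).Nodup := by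
    apply List.Nodup.append sU.nodup Z.nodup_toList
    intro x hx hx'
    rw [mem_toList] at hx'
    exact hzpos x (mZ x hx') ((mU x).1 ((mLU x).1 hx))
  obtain ⟨θ, hθ⟩ := exists_map n1 n2 (by simp [hZc, lR, lU, hR3])
  rw [List.map_append] at hθ
  obtain ⟨e1, e2⟩ := List.append_inj hθ (by simp [lR, lU, hR3])
  have hcont : content (fun k => a (θ k)) = content a := content_comp a θ
  have hfc : f (fun k => a (θ k)) = f a := by
    apply hf.comp
    have hpre : ∀ x, IsSing a (θ x) → x ∈ LR := by
      intro x hx
      rw [← mU, ← mLU, ← e1, List.mem_map] at hx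
      obtain ⟨y, hy, hyx⟩ := hx
      rwa [← θ.injective hyx]
    intro x y hx hy hxy
    have h1 : LU.Pairwise fun (a b : Fin n) => ((a : ℕ) : ℤ) < ((b : ℕ) : ℤ) := sU
    rw [← e1, List.pairwise_map] at h1
    have h2 : LR.Pairwise fun (a b : Fin n) => ((a : ℕ) : ℤ) < ((b : ℕ) : ℤ) := sR
    have h3 := h1.and h2
    have h4 : ∀ x ∈ LR, ∀ y ∈ LR, (x < y → θ x < θ y) ∧ (y < x → θ y < θ x) := by
      have : Std.Symm fun x y => (x < y → θ x < θ y) ∧ (y < x → θ y < θ x) :=
        ⟨fun x y h => ⟨h.2, h.1⟩⟩
      apply List.Pairwise.forall_of_forall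
      · intro x _; exact ⟨fun h => absurd h (lt_irrefl _), fun h => absurd h (lt_irrefl _)⟩
      · refine h3.imp fun {x y} h => ?_
        have e3 : (θ x : ℕ) < θ y := by exact_mod_cast h.1
        have e4 : (x : ℕ) < y := by exact_mod_cast h.2
        exact ⟨fun _ => e3, fun h' => absurd h' (not_lt.2 (le_of_lt e4))⟩
    exact (h4 x (hpre x hx) y (hpre y hy)).1 hxy
  obtain ⟨a', e3, e4⟩ := hcore (fun k => a (θ k)) z (by
    intro p hp
    apply mZ
    rw [← mem_toList, ← e2]
    exact List.mem_map_of_mem (mem_toList.2 hp))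
  have hp1R : p1 ∈ LR := (mR p1).2 (hR1 (mem_singleton_self p1))
  have hs : IsSing a (θ p1) := by
    rw [← mU, ← mLU, ← e1]
    exact List.mem_map_of_mem hp1R
  refine ⟨a', a (θ p1), e3.trans hfc, (isSing_iff a _).1 hs, ?_⟩
  rw [e4, hcont]

/-- The same support. -/
def SameSupp (a a' : Fin n → A) : Prop :=
  ∀ v, (content a').count v = 0 ↔ (content a).count v = 0

theorem SameSupp.trans' {a a' a'' : Fin n → A} (h : SameSupp a a') (h' : SameSupp a' a'') :
    SameSupp a a'' := fun v => (h' v).trans (h v)

theorem special_N [Fintype A] (hf : DetCS f) (hsp : Special f g) (hn : Fintype.card A + 4 ≤ n)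
    (hn3 : 3 * Fintype.card A < n) (m : ℕ) : ∀ a : Fin n → A,
    (univ.filter fun v => (content a).count v = 1).card = m →
    ∃ a' : Fin n → A, f a' = f a ∧ SameSupp a a' ∧ ∀ v, (content a').count v ≠ 1 := by
  induction m using Nat.strong_induction_on with
  | _ m ih =>
    intro a ha
    by_cases h1 : ∀ v, (content a).count v ≠ 1
    · exact ⟨a, rfl, fun v => Iff.rfl, h1⟩
    push Not at h1
    obtain ⟨v0, hv0⟩ := h1
    obtain ⟨p0, hp0⟩ : ∃ p, a p = v0 := by
      by_contra hcon
      push Not at hcon
      have := (count_eq_zero a v0).2 hcon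
      omega
    obtain ⟨z, hz⟩ := exists_class a hn3
    rw [← count_content] at hz
    obtain ⟨a1, x, e1, e2, e3⟩ := special_one hf hsp hn
      ((isSing_iff a p0).2 (by rw [hp0]; exact hv0)) hz
    have hrel := count_rel e3
    have hxz : x ≠ z := by rintro rfl; omega
    have hx1 := hrel x
    have hz1 := hrel z
    rw [if_neg hxz.symm, if_pos rfl] at hx1
    rw [if_neg hxz, if_pos rfl] at hz1
    have hother : ∀ v, v ≠ x → v ≠ z → (content a1).count v = (content a).count v := by
      intro v hvx hvz
      have := hrel v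
      rw [if_neg (Ne.symm hvx), if_neg (Ne.symm hvz)] at this
      omega
    have hsupp : SameSupp a a1 := by
      intro v
      by_cases hvx : v = x
      · subst hvx; omega
      · by_cases hvz : v = z
        · subst hvz; omega
        · rw [hother v hvx hvz]
    have hlt : (univ.filter fun v => (content a1).count v = 1).card < m := by
      rw [← ha]
      apply card_lt_card
      rw [ssubset_iff_of_subset]
      · refine ⟨x, ?_, ?_⟩
        · rw [mem_filter]; exact ⟨mem_univ _, e2⟩
        · rw [mem_filter]
          rintro ⟨_, h⟩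
          omega
      · intro v hv
        rw [mem_filter] at hv ⊢
        refine ⟨mem_univ _, ?_⟩
        by_cases hvx : v = x
        · subst hvx; omega
        · by_cases hvz : v = z
          · subst hvz; omega
          · rw [← hother v hvx hvz]; exact hv.2
    obtain ⟨a', e4, e5, e6⟩ := ih _ hlt a1 rfl
    exact ⟨a', e4.trans e1, hsupp.trans' e5, e6⟩

theorem sum_count [Fintype A] (a : Fin n → A) : ∑ v, (content a).count v = n := by
  have h := Multiset.toFinset_sum_count_eq (content a)
  have h2 : Multiset.card (content a) = n := by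
    rw [content, Multiset.card_map]
    simp
  rw [h2] at h
  refine Eq.trans ?_ h
  symm
  apply sum_subset (subset_univ _)
  intro v _ hv
  rw [Multiset.mem_toFinset] at hv
  exact Multiset.count_eq_zero.2 hv

theorem content_update (a : Fin n → A) (p : Fin n) (z : A) :
    content (Function.update a p z) + {a p} = content a + {z} := by
  have h1 : ∀ c : Fin n → A, content c = c p ::ₘ ((univ.erase p).val.map c) := by
    intro c
    rw [content]
    rw [← Multiset.map_cons c p]
    congr 1
    rw [Finset.erase_val, Multiset.cons_erase]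
    exact mem_univ p
  rw [h1 (Function.update a p z), h1 a, Function.update_self]
  have h2 : (univ.erase p).val.map (Function.update a p z) = (univ.erase p).val.map a := by
    apply Multiset.map_congr rfl
    intro x hx
    have : x ∈ univ.erase p := hx
    rw [mem_erase] at this
    rw [Function.update_of_ne this.1]
  rw [h2, Multiset.cons_add, Multiset.cons_add, ← Multiset.singleton_add,
    ← Multiset.singleton_add]
  rw [add_comm ((univ.erase p).val.map a) {a p}, add_comm ((univ.erase p).val.map a) {z}]
  exact add_left_comm _ _ _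

theorem special_M [Fintype A] (hf : DetCS f) (hsp : Special f g)
    (hn3 : 3 * Fintype.card A < n) (z0 : A) (m : ℕ) : ∀ a : Fin n → A,
    n - (content a).count z0 = m → (∀ v, (content a).count v ≠ 1) →
    (content a).count z0 ≠ 0 →
    ∃ a' : Fin n → A, f a' = f a ∧ SameSupp a a' ∧ (∀ v, (content a').count v ≠ 1) ∧
      ∀ v, v ≠ z0 → (content a').count v = 0 ∨ (content a').count v = 2 := by
  induction m using Nat.strong_induction_on with
  | _ m ih =>
    intro a ha h1 h0
    have hbound : ∀ c : Fin n → A, (content c).count z0 ≤ n := by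
      intro c
      exact (single_le_sum (f := fun v => (content c).count v) (fun _ _ => Nat.zero_le _)
        (mem_univ z0)).trans (sum_count c).le
    by_cases hA : ∃ x, x ≠ z0 ∧ 4 ≤ (content a).count x
    · obtain ⟨x, hx, hx4⟩ := hA
      obtain ⟨a1, e1, e2⟩ := special_two hf hsp h1 hx.symm h0 hx4
      have hrel := count_rel e2
      have hx1 := hrel x
      have hz1 := hrel z0
      rw [if_pos rfl, if_neg hx.symm] at hx1
      rw [if_neg hx, if_pos rfl] at hz1
      have hother : ∀ v, v ≠ x → v ≠ z0 → (content a1).count v = (content a).count v := by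
        intro v hvx hvz
        have := hrel v
        rw [if_neg (Ne.symm hvx), if_neg (Ne.symm hvz)] at this
        omega
      have hsupp : SameSupp a a1 := by
        intro v
        by_cases hvx : v = x
        · subst hvx; omega
        · by_cases hvz : v = z0
          · subst hvz; omega
          · rw [hother v hvx hvz]
      have h1' : ∀ v, (content a1).count v ≠ 1 := by
        intro v
        by_cases hvx : v = x
        · subst hvx; omega
        · by_cases hvz : v = z0
          · subst hvz; omega
          · rw [hother v hvx hvz]; exact h1 v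
      have hb := hbound a1
      obtain ⟨a', e4, e5, e6⟩ := ih (n - (content a1).count z0) (by omega) a1 rfl h1' (by omega)
      exact ⟨a', e4.trans e1, hsupp.trans' e5, e6⟩
    push Not at hA
    -- the value z0 is taken often
    have hz4 : 4 ≤ (content a).count z0 := by
      by_contra hcon
      have : ∑ v, (content a).count v ≤ ∑ _v : A, 3 := by
        apply sum_le_sum
        intro v _
        by_cases hv : v = z0
        · subst hv; omega
        · have := hA v hv; omega
      rw [sum_count, sum_const, smul_eq_mul, card_univ] at this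
      omega
    by_cases hB : ∃ x, x ≠ z0 ∧ (content a).count x = 3
    · obtain ⟨x, hx, hx3⟩ := hB
      obtain ⟨p, hp⟩ : ∃ p, a p = x := by
        by_contra hcon
        push Not at hcon
        have := (count_eq_zero a x).2 hcon
        omega
      obtain ⟨a1, ha1⟩ : ∃ a1, a1 = Function.update a p z0 := ⟨_, rfl⟩
      have e2 : content a1 + {x} = content a + {z0} := by
        rw [ha1, ← hp]
        exact content_update a p z0
      have hrel := count_rel e2
      have hx1 := hrel x
      have hz1 := hrel z0
      rw [if_pos rfl, if_neg hx.symm] at hx1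
      rw [if_neg hx, if_pos rfl] at hz1
      have hother : ∀ v, v ≠ x → v ≠ z0 → (content a1).count v = (content a).count v := by
        intro v hvx hvz
        have := hrel v
        rw [if_neg (Ne.symm hvx), if_neg (Ne.symm hvz)] at this
        omega
      have hsupp : SameSupp a a1 := by
        intro v
        by_cases hvx : v = x
        · subst hvx; omega
        · by_cases hvz : v = z0
          · subst hvz; omega
          · rw [hother v hvx hvz]
      have h1' : ∀ v, (content a1).count v ≠ 1 := by
        intro v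
        by_cases hvx : v = x
        · subst hvx; omega
        · by_cases hvz : v = z0
          · subst hvz; omega
          · rw [hother v hvx hvz]; exact h1 v
      have hfa : f a1 = f a := by
        obtain ⟨a2, e3, e4⟩ := special_two hf hsp h1' (x := x) (z := z0) hx (by omega) (by omega)
        rw [e2] at e4
        have e5 := add_right_cancel e4
        rw [← e3]
        exact eq_of_content hf e5 (by rw [e5]; exact h1)
      have hb := hbound a1
      obtain ⟨a', e4, e5, e6⟩ := ih (n - (content a1).count z0) (by omega) a1 rfl h1' (by omega)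
      exact ⟨a', e4.trans hfa, hsupp.trans' e5, e6⟩
    · push Not at hB
      refine ⟨a, rfl, fun v => Iff.rfl, h1, ?_⟩
      intro v hv
      have e1 := hA v hv
      have e2 := hB v hv
      have e3 := h1 v
      omega

/-- In the special case the function depends only on the set of values. -/
theorem special_F [Fintype A] (hf : DetCS f) (hsp : Special f g) (hn : Fintype.card A + 4 ≤ n)
    (hn3 : 3 * Fintype.card A < n) {a a' : Fin n → A} (h : SameSupp a a') : f a = f a' := by
  obtain ⟨a1, e1, e2, e3⟩ := special_N hf hsp hn hn3 _ a rfl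
  obtain ⟨a1', e1', e2', e3'⟩ := special_N hf hsp hn hn3 _ a' rfl
  have hn0 : 0 < n := by omega
  obtain ⟨z0, hz0⟩ : ∃ z0, z0 = a ⟨0, hn0⟩ := ⟨_, rfl⟩
  have hz : (content a).count z0 ≠ 0 := by
    have := count_pos a ⟨0, hn0⟩
    rw [← hz0] at this
    omega
  have hz1 : (content a1).count z0 ≠ 0 := fun h' => hz ((e2 z0).1 h')
  have hz1' : (content a1').count z0 ≠ 0 := fun h' => hz ((h z0).1 ((e2' z0).1 h'))
  obtain ⟨a2, e4, e5, e6, e7⟩ := special_M hf hsp hn3 z0 _ a1 rfl e3 hz1
  obtain ⟨a2', e4', e5', e6', e7'⟩ := special_M hf hsp hn3 z0 _ a1' rfl e3' hz1'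
  have hsupp : ∀ v, (content a2).count v = 0 ↔ (content a2').count v = 0 := by
    intro v
    rw [e5 v, e2 v, e5' v, e2' v, h v]
  have hother : ∀ v, v ≠ z0 → (content a2).count v = (content a2').count v := by
    intro v hv
    have h1 := e7 v hv
    have h2 := e7' v hv
    have h3 := hsupp v
    omega
  have hcont : content a2 = content a2' := by
    rw [Multiset.ext]
    intro v
    by_cases hv : v = z0
    · subst hv
      have s1 := sum_count a2
      have s2 := sum_count a2'
      rw [← add_sum_erase _ _ (mem_univ v)] at s1 s2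
      have s3 : ∑ x ∈ univ.erase v, (content a2).count x =
          ∑ x ∈ univ.erase v, (content a2').count x :=
        sum_congr rfl fun x hx => hother x (mem_erase.1 hx).1
      omega
    · exact hother v hv
  calc f a = f a1 := e1.symm
    _ = f a2 := e4.symm
    _ = f a2' := eq_of_content hf hcont e6
    _ = f a1' := e4'
    _ = f a' := e1'

/-- In the special case the two functions agree. -/
theorem special_eq [Fintype A] (hf : DetCS f) (hsp : Special f g) (hn : Fintype.card A + 4 ≤ n)
    (hn3 : 3 * Fintype.card A < n) (hall : ∀ i j : Fin n, i ≠ j → Nonempty (KD f g i j)) :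
    f = g := by
  funext b
  obtain ⟨i, j, hij, hb⟩ := Fintype.exists_ne_map_eq_of_card_lt b (by
    rw [Fintype.card_fin]; omega)
  obtain ⟨D⟩ := hall i j hij
  rw [D.eq b hb]
  apply special_F hf hsp hn hn3
  intro v
  rw [count_eq_zero, count_eq_zero]
  constructor
  · intro h q hq
    by_cases hqj : q = j
    · obtain ⟨p, _, hp⟩ := D.surj i hij
      apply h p
      rw [hp, hb, ← hqj, hq]
    · obtain ⟨p, _, hp⟩ := D.surj q hqj
      apply h p
      rw [hp, hq]
  · intro h p
    exact h _

end Pool.Agent.NH78.Rec
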