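import Pool.Agent.R795.Min.Main
import Pool.Agent.NH78.Glue.Core

/-!
# Tuples: content and singletons
-/

set_option autoImplicit false
set_option linter.unusedSectionVars false

open Function Finset Pool.Agent.R795.Min Pool.Agent.NH78.Glue

namespace Pool.Agent.NH78.Rec

variable {A B : Type} [DecidableEq A]

theorem count_content {n : ℕ} (a : Fin n → A) (v : A) :
    (content a).count v = (univ.filter fun k => a k = v).card := by
  rw [content, Multiset.count_map]
  rw [Finset.card_def, Finset.filter_val]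
  congr 1
  apply Multiset.filter_congr
  intro x _
  exact eq_comm

theorem isSing_iff {n : ℕ} (a : Fin n → A) (p : Fin n) :
    IsSing a p ↔ (content a).count (a p) = 1 := by
  rw [count_content, ← count_ofFn, count_eq_one]

theorem count_pos {n : ℕ} (a : Fin n → A) (p : Fin n) : 1 ≤ (content a).count (a p) := by
  rw [count_content, Nat.one_le_iff_ne_zero, Finset.card_ne_zero]
  exact ⟨p, by simp⟩

theorem count_eq_zero {n : ℕ} (a : Fin n → A) (v : A) :
    (content a).count v = 0 ↔ ∀ p, a p ≠ v := by
  rw [count_content, Finset.card_eq_zero, filter_eq_empty_iff]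
  simp

theorem sing_eq' {n N : ℕ} (b : Fin n → A) (κ : Fin N → Fin n) :
    sing (fun p => b (κ p)) = (((List.finRange N).filter fun p =>
      (List.ofFn fun p => b (κ p)).count (b (κ p)) = 1).map κ).map b := by
  rw [sing_eq, List.map_map]
  rfl

theorem sing_eq_map {n N : ℕ} {r : Fin n → ℤ} {b : Fin n → A} {κ : Fin N → Fin n}
    {l : List (Fin n)} (hl : Srt r l)
    (hmono : ∀ p q, IsSing (fun p => b (κ p)) p → IsSing (fun p => b (κ p)) q → p < q →
      r (κ p) < r (κ q))
    (hmem : ∀ x, x ∈ l ↔ ∃ p, IsSing (fun p => b (κ p)) p ∧ κ p = x) :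
    sing (fun p => b (κ p)) = l.map b := by
  rw [sing_eq']
  congr 1
  obtain ⟨F, hF⟩ : ∃ F, F = (List.finRange N).filter fun p =>
      (List.ofFn fun p => b (κ p)).count (b (κ p)) = 1 := ⟨_, rfl⟩
  rw [← hF]
  have mF : ∀ p, p ∈ F ↔ IsSing (fun p => b (κ p)) p := by
    intro p
    rw [hF, List.mem_filter]
    simp only [List.mem_finRange, true_and, decide_eq_true_eq]
    exact count_eq_one (fun p => b (κ p)) p
  have sF : F.Pairwise (· < ·) := hF ▸ (List.pairwise_lt_finRange N).filter _
  apply srt_unique (r := r) _ hl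
  · intro x
    rw [List.mem_map, hmem]
    constructor
    · rintro ⟨p, hp, rfl⟩
      exact ⟨p, (mF p).1 hp, rfl⟩
    · rintro ⟨p, hp, rfl⟩
      exact ⟨p, (mF p).2 hp, rfl⟩
  · rw [Srt, List.pairwise_map]
    exact sF.imp_of_mem fun {p q} hp hq hpq => hmono p q ((mF p).1 hp) ((mF q).1 hq) hpq

theorem nodup_sing {n : ℕ} (a : Fin n → A) : (sing a).Nodup := by
  rw [sing_eq]
  apply List.Nodup.map_on
  · intro x hx y _ hxy
    rw [List.mem_filter] at hx
    have h1 := (count_eq_one a x).1 (by simpa using hx.2)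
    exact (h1 y hxy.symm).symm
  · exact (List.nodup_finRange n).filter _

/-- A tuple with given singletons in a given order. -/
theorem exists_tuple {n : ℕ} (b : Fin n → A) {l : List (Fin n)} (hl : l.Nodup)
    (hm : ∀ p, IsSing b p ↔ p ∈ l) :
    ∃ a : Fin n → A, content a = content b ∧ sing a = l.map b := by
  classical
  obtain ⟨rest, hrest⟩ : ∃ rest, rest = (List.finRange n).filter fun x => decide (x ∉ l) :=
    ⟨_, rfl⟩
  have hrn : rest.Nodup := hrest ▸ (List.nodup_finRange n).filter _
  have mr : ∀ x, x ∈ rest ↔ x ∉ l := by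
    intro x
    rw [hrest, List.mem_filter]
    simp
  have hL : (l ++ rest).Nodup := by
    apply List.Nodup.append hl hrn
    intro x hx hx'
    exact (mr x).1 hx' hx
  have hperm : (List.finRange n).Perm (l ++ rest) := by
    rw [List.perm_ext_iff_of_nodup (List.nodup_finRange n) hL]
    intro x
    rw [List.mem_append, mr]
    simp only [List.mem_finRange, true_iff]
    exact em _
  obtain ⟨θ, hθ⟩ := exists_map (List.nodup_finRange n) hL hperm.length_eq
  refine ⟨fun p => b (θ p), content_comp b θ, ?_⟩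
  rw [sing_eq']
  congr 1
  have h1 : ((List.finRange n).filter fun p =>
      (List.ofFn fun p => b (θ p)).count (b (θ p)) = 1) =
      (List.finRange n).filter ((fun x => decide (x ∈ l)) ∘ θ) := by
    apply List.filter_congr
    intro p _
    simp only [comp_apply, decide_eq_decide]
    rw [← hm, ← isSing_comp]
    exact count_eq_one (fun p => b (θ p)) p
  rw [h1, ← List.filter_map, hθ, List.filter_append]
  have h2 : l.filter (fun x => decide (x ∈ l)) = l := by
    rw [List.filter_eq_self]
    intro x hx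
    simpa using hx
  have h3 : rest.filter (fun x => decide (x ∈ l)) = [] := by
    rw [List.filter_eq_nil_iff]
    intro x hx
    simpa using (mr x).1 hx
  rw [h2, h3, List.append_nil]

/-- Moving a set of positions. -/
theorem exists_move {V : Type} [Fintype V] [DecidableEq V] {Q W Z : Finset V}
    (hW : Disjoint W Q) (hZ : Disjoint Z Q) (hc : W.card ≤ Z.card) :
    ∃ θ : Equiv.Perm V, (∀ x ∈ Q, θ x = x) ∧ ∀ w ∈ W, θ w ∈ Z := by
  obtain ⟨Z', hZ', hc'⟩ := exists_subset_card_eq hc
  have n1 : (Q.toList ++ W.toList).Nodup := by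
    apply List.Nodup.append Q.nodup_toList W.nodup_toList
    intro x hx hx'
    rw [mem_toList] at hx hx'
    exact disjoint_left.1 hW hx' hx
  have n2 : (Q.toList ++ Z'.toList).Nodup := by
    apply List.Nodup.append Q.nodup_toList Z'.nodup_toList
    intro x hx hx'
    rw [mem_toList] at hx hx'
    exact disjoint_left.1 hZ (hZ' hx') hx
  obtain ⟨θ, hθ⟩ := exists_map n1 n2 (by simp [hc'])
  rw [List.map_append] at hθ
  obtain ⟨e1, e2⟩ := List.append_inj hθ (by simp)
  refine ⟨θ, ?_, ?_⟩
  · intro x hx
    have : Q.toList.map θ = Q.toList.map id := by rw [e1, List.map_id]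
    exact List.map_inj_left.1 this x (mem_toList.2 hx)
  · intro w hw
    have : θ w ∈ Z'.toList := by
      rw [← e2]
      exact List.mem_map_of_mem (mem_toList.2 hw)
    exact hZ' (mem_toList.1 this)

/-- The system of orderings of singletons attached to two functions. -/
def sysCS {n : ℕ} (f g : (Fin n → A) → B) (hf : DetCS f) : Sys (Fin n) where
  E l l' := l.Perm l' ∧ ∀ b : Fin n → A, (∀ p, IsSing b p ↔ p ∈ l) → ∀ a a' : Fin n → A,
    content a = content b → content a' = content b → sing a = l.map b → sing a' = l'.map b →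
      f a = f a'
  Val l := ∀ b : Fin n → A, (∀ p, IsSing b p ↔ p ∈ l) → ∀ a : Fin n → A,
    content a = content b → sing a = l.map b → f a = g b
  refl := fun l => ⟨List.Perm.refl l, fun b _ a a' h1 h2 h3 h4 =>
    hf a a' (h1.trans h2.symm) (h3.trans h4.symm)⟩
  symm := by
    rintro l l' ⟨hp, h⟩
    refine ⟨hp.symm, fun b hb a a' h1 h2 h3 h4 => ?_⟩
    exact (h b (fun p => (hb p).trans hp.mem_iff.symm) a' a h2 h1 h4 h3).symm
  trans := by
    rintro l l' l'' ⟨hp, h⟩ ⟨hp', h'⟩
    refine ⟨hp.trans hp', fun b hb a a'' h1 h2 h3 h4 => ?_⟩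
    have hn : l.Nodup := by
      have := nodup_sing a
      rw [h3] at this
      exact List.Nodup.of_map _ this
    have hb' : ∀ p, IsSing b p ↔ p ∈ l' := fun p => (hb p).trans hp.mem_iff
    obtain ⟨a', e1, e2⟩ := exists_tuple b (hp.nodup_iff.1 hn) hb'
    rw [h b hb a a' h1 e1 h3 e2]
    exact h' b hb' a' a'' e1 h2 e2 h4
  map := by
    rintro θ l l' ⟨hp, h⟩
    refine ⟨hp.map θ, fun b hb a a' h1 h2 h3 h4 => ?_⟩
    apply h (fun p => b (θ p)) _ a a'
    · rw [h1, content_comp]
    · rw [h2, content_comp]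
    · rw [h3, List.map_map]; rfl
    · rw [h4, List.map_map]; rfl
    · intro p
      rw [isSing_comp, hb, List.mem_map]
      constructor
      · rintro ⟨q, hq, hqp⟩
        rwa [← θ.injective hqp]
      · intro hp
        exact ⟨p, hp, rfl⟩
  val_of := by
    rintro l l' hv ⟨hp, h⟩
    intro b hb a' h1 h2
    have hn : l'.Nodup := by
      have := nodup_sing a'
      rw [h2] at this
      exact List.Nodup.of_map _ this
    have hb' : ∀ p, IsSing b p ↔ p ∈ l := fun p => (hb p).trans hp.mem_iff.symm
    obtain ⟨a, e1, e2⟩ := exists_tuple b (hp.nodup_iff.2 hn) hb'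
    rw [← h b hb' a a' e1 h1 e2 h2]
    exact hv b hb' a e1 e2
  of_val := by
    rintro l l' hv hv' hp
    refine ⟨hp, fun b hb a a' h1 h2 h3 h4 => ?_⟩
    rw [hv b hb a h1 h3, hv' b (fun p => (hb p).trans hp.mem_iff) a' h2 h4]

/-- Similarity from a global ranking. -/
theorem similar_of_rank {n : ℕ} {f g : (Fin n → A) → B} (hf : DetCS f) [Fintype A] {s : ℕ}
    (hs : Fintype.card A ≤ s) {r : Fin n → ℤ} (hr : Injective r)
    (hv : ∀ l, Srt r l → l.length ≤ s → (sysCS f g hf).Val l) :
    ∃ σ : Equiv.Perm (Fin n), ∀ b, f (fun k => b (σ k)) = g b := by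
  classical
  obtain ⟨L, sL, mL, lL⟩ := exists_srt hr (univ : Finset (Fin n))
  simp only [mem_univ, iff_true] at mL
  have hperm : (List.finRange n).Perm L := by
    rw [List.perm_ext_iff_of_nodup (List.nodup_finRange n) sL.nodup]
    intro x
    simp [mL]
  obtain ⟨σ, hσ⟩ := exists_map (List.nodup_finRange n) sL.nodup hperm.length_eq
  refine ⟨σ, fun b => ?_⟩
  obtain ⟨l, sl, ml, ll⟩ := exists_srt hr (univ.filter fun p => IsSing b p)
  simp only [mem_filter, mem_univ, true_and] at ml
  have hls : l.length ≤ s := by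
    rw [ll]
    exact (card_sing_le b _ fun u hu => (mem_filter.1 hu).2).trans hs
  refine hv l sl hls b (fun p => (ml p).symm) _ (content_comp b σ) ?_
  apply sing_eq_map (r := r) sl
  · intro p q _ _ hpq
    have h1 : (L).Pairwise fun a b => r a < r b := sL
    rw [← hσ, List.pairwise_map] at h1
    have h2 := List.pairwise_lt_finRange n
    have h3 := h1.and h2
    have h4 : ∀ x ∈ List.finRange n, ∀ y ∈ List.finRange n,
        (x < y → r (σ x) < r (σ y)) ∧ (y < x → r (σ y) < r (σ x)) := by
      have : Std.Symm fun x y => (x < y → r (σ x) < r (σ y)) ∧ (y < x → r (σ y) < r (σ x)) :=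
        ⟨fun x y h => ⟨h.2, h.1⟩⟩
      apply List.Pairwise.forall_of_forall
      · intro x _; exact ⟨fun h => absurd h (lt_irrefl _), fun h => absurd h (lt_irrefl _)⟩
      · exact h3.imp fun {x y} h => ⟨fun _ => h.1, fun h' => absurd h' h.2.asymm⟩
    exact (h4 p (List.mem_finRange p) q (List.mem_finRange q)).1 hpq
  · intro x
    rw [ml]
    constructor
    · intro hx
      refine ⟨σ.symm x, ?_, by simp⟩
      rw [isSing_comp]
      simpa using hx
    · rintro ⟨p, hp, rfl⟩
      rwa [isSing_comp] at hp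

end Pool.Agent.NH78.Rec
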